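import Pool.Agent.TH229.PG.HopfDefs

/-!
Minkowski billiards: abstract variational data, and plane convex tables.
-/

set_option autoImplicit false

namespace Pool.Agent.TH229.MB

open Real Filter Topology MeasureTheory Set
open Pool.Agent.TH229.PG (Leaf)

/-- abstract data of a twist map with bounded phase space: `p = ∂₀L`, `q = ∂₁L`, `a = ∂₀∂₁L`,
`p0 = ∂₀∂₀L`, `q1 = ∂₁∂₁L` on the strip `x < x' < x + T` -/
structure TwistData (T C : ℝ) (p q a p0 q1 : ℝ → ℝ → ℝ) : Prop where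
  Tpos : 0 < T
  perp : ∀ x x', p (x + T) (x' + T) = p x x'
  perq : ∀ x x', q (x + T) (x' + T) = q x x'
  pera : ∀ x x', a (x + T) (x' + T) = a x x'
  perp0 : ∀ x x', p0 (x + T) (x' + T) = p0 x x'
  perq1 : ∀ x x', q1 (x + T) (x' + T) = q1 x x'
  dp1 : ∀ x x', x < x' → x' < x + T → HasDerivAt (fun z => p x z) (a x x') x'
  dp0 : ∀ x x', x < x' → x' < x + T → HasDerivAt (fun z => p z x') (p0 x x') x
  dq1 : ∀ x x', x < x' → x' < x + T → HasDerivAt (fun z => q x z) (q1 x x') x'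
  dq0 : ∀ x x', x < x' → x' < x + T → HasDerivAt (fun z => q z x') (a x x') x
  apos : ∀ x x', x < x' → x' < x + T → 0 < a x x'
  conta : ContinuousOn (fun z : ℝ × ℝ => a z.1 z.2) {z | z.1 < z.2 ∧ z.2 < z.1 + T}
  contp0 : ContinuousOn (fun z : ℝ × ℝ => p0 z.1 z.2) {z | z.1 < z.2 ∧ z.2 < z.1 + T}
  contq1 : ContinuousOn (fun z : ℝ × ℝ => q1 z.1 z.2) {z | z.1 < z.2 ∧ z.2 < z.1 + T}
  ba : ∀ x x', x < x' → x' < x + T → |a x x'| ≤ C
  bp0 : ∀ x x', x < x' → x' < x + T → |p0 x x'| ≤ C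
  bq1 : ∀ x x', x < x' → x' < x + T → |q1 x x'| ≤ C
  /-- every pair lies on an invariant leaf -/
  cov : ∀ x x', x < x' → x' < x + T → ∃ τ, Leaf T τ ∧ τ x = x' ∧
    ∀ u, q u (τ u) + p (τ u) (τ (τ u)) = 0

/-- plane bracket -/
def br (u v : ℝ × ℝ) : ℝ := u.1 * v.2 - u.2 * v.1

/-- euclidean length -/
noncomputable def ln (u : ℝ × ℝ) : ℝ := Real.sqrt (u.1 ^ 2 + u.2 ^ 2)

/-- a closed convex `C²` table of positive curvature with the origin inside -/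
structure Table (P : ℝ) (g g1 g2 : ℝ → ℝ × ℝ) : Prop where
  Ppos : 0 < P
  d1 : ∀ t, HasDerivAt g (g1 t) t
  d2 : ∀ t, HasDerivAt g1 (g2 t) t
  c2 : Continuous g2
  per : ∀ t, g (t + P) = g t
  org : ∀ t, 0 < br (g t) (g1 t)
  curv : ∀ t, 0 < br (g1 t) (g2 t)
  conv : ∀ t t', t < t' → t' < t + P → 0 < br (g1 t) (g t' - g t)

end Pool.Agent.TH229.MB
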